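import Pool.Agent.TH326.SF.Iso

/-!
# No star-finite covering by balls: `L₁`-preduals, function spaces and their sums

A negative answer to Q1 for a class of Banach spaces that contains every predual of an `L₁(μ)`
(Lindenstrauss space), in particular the `C(K)` and `C₀(L)` spaces, the spaces with a dense set of
Fréchet smooth points, the locally uniformly rotund spaces, the octahedral spaces, and that is
closed under finite and infinite sup-sums and under `ℓ_p`-sums, `1 ≤ p < ∞`.
-/

set_option autoImplicit false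
set_option linter.all false

open Set Metric Topology Filter TopologicalSpace MeasureTheory
open scoped BoundedContinuousFunction ENNReal ZeroAtInfty

namespace Pool.Agent.Results.MP_a8a0a5_an.PredualsAndSums

universe u v w

section defs

variable {X : Type*} [NormedAddCommGroup X] [NormedSpace ℝ X]

/-- The closed balls `B(c i, r i)` form a star-finite covering of `X` by balls of positive
radius. -/
def StarFiniteCover {ι : Type*} (c : ι → X) (r : ι → ℝ) : Prop :=
  (∀ i, 0 < r i) ∧ (⋃ i, closedBall (c i) (r i)) = univ ∧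
    ∀ i, {j | (closedBall (c i) (r i) ∩ closedBall (c j) (r j)).Nonempty}.Finite

/-- The norm is not locally octahedral at `v`: for one scale `s` the second differences
`‖v + s u‖ + ‖v - s u‖ - 2 ‖v‖`, over the unit vectors `u`, stay away from their largest possible
value `2 s`. -/
def SmoothAt (v : X) : Prop :=
  ∃ s > (0:ℝ), ∃ η > (0:ℝ), ∀ u : X, ‖u‖ = 1 → ‖v + s • u‖ + ‖v - s • u‖ ≤ 2 * ‖v‖ + 2 * s - η

/-- The weak* open slice `{f : ‖f‖ ≤ 1, f c > β}` of the dual unit ball. -/
def Slice (c : X) (β : ℝ) : Set (StrongDual ℝ X) := {f | ‖f‖ ≤ 1 ∧ β < f c}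

/-- Simultaneous roughness at `v`, with constants `a, η > 0`: for any finitely many nonempty weak*
slices of the dual ball inside `{f : f v > ‖v‖ - η}`, one vector `u` of the unit ball, almost
annihilated by finitely many prescribed functionals, has in each of these slices a functional with
`f u < - a`. -/
def RoughAt (v : X) : Prop :=
  ∃ a > (0:ℝ), ∃ η > (0:ℝ), ∀ (W : Finset (X × ℝ)) (G : Finset (StrongDual ℝ X)),
    (∀ w ∈ W, (Slice w.1 w.2).Nonempty ∧ ∀ f ∈ Slice w.1 w.2, ‖v‖ - η < f v) →
    ∀ ε > (0:ℝ), ∃ u : X, ‖u‖ ≤ 1 ∧ (∀ g ∈ G, |g u| ≤ ε) ∧ ∀ w ∈ W, ∃ f ∈ Slice w.1 w.2, f u < -a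

end defs

/-- The norm of `X` is locally uniformly rotund. -/
def LURotund (X : Type*) [NormedAddCommGroup X] [NormedSpace ℝ X] : Prop :=
  ∀ x : X, ‖x‖ = 1 → ∀ y : ℕ → X, (∀ n, ‖y n‖ = 1) →
    Tendsto (fun n => ‖x + y n‖) atTop (𝓝 2) → Tendsto y atTop (𝓝 x)

/-- The norm of `X` is octahedral. -/
def Octahedral (X : Type*) [NormedAddCommGroup X] [NormedSpace ℝ X] : Prop :=
  ∀ F : Finset X, (∀ x ∈ F, ‖x‖ = 1) → ∀ ε > (0:ℝ), ∃ y : X, ‖y‖ = 1 ∧ ∀ x ∈ F, 2 - ε ≤ ‖x + y‖

/-- Every extreme point `e` of the dual unit ball spans an L-summand of the dual: there is a linear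
`P` with `P e = 1` and `‖g‖ = |P g| + ‖g - P g • e‖` for all `g`. -/
def ExtremeLSummands (X : Type*) [NormedAddCommGroup X] [NormedSpace ℝ X] : Prop :=
  ∀ e ∈ (closedBall (0 : StrongDual ℝ X) 1).extremePoints ℝ,
    ∃ P : StrongDual ℝ X →ₗ[ℝ] ℝ, P e = 1 ∧ ∀ g, ‖g‖ = |P g| + ‖g - P g • e‖

/-- `J` embeds `E` isometrically in `C_b(S)`, and every nonempty open set `G` of `S` carries a
nonzero function of `E` that vanishes outside `G`. -/
def Regular {E S : Type*} [NormedAddCommGroup E] [NormedSpace ℝ E] [TopologicalSpace S]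
    (J : E →ₗᵢ[ℝ] (S →ᵇ ℝ)) : Prop :=
  ∀ G : Set S, IsOpen G → G.Nonempty → ∃ e : E, e ≠ 0 ∧ ∀ t, t ∉ G → J e t = 0

/-- `E` is an M-summand of `X`, through the isometric embedding `i` and the projection `p`. -/
def MSummand {E X : Type*} [NormedAddCommGroup E] [NormedSpace ℝ E] [NormedAddCommGroup X]
    [NormedSpace ℝ X] (i : E →ₗᵢ[ℝ] X) (p : X →L[ℝ] E) : Prop :=
  (∀ e, p (i e) = e) ∧ ∀ x, ‖x‖ = max ‖p x‖ ‖x - i (p x)‖

/-- The class of normed spaces of the theorem, the smallest one that contains the spaces of the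
constructors `points`, ..., `vanishing`, and is closed under isometric copies and the sums of the
remaining constructors. -/
inductive Tame : (X : Type u) → [NormedAddCommGroup X] → [NormedSpace ℝ X] → Prop
  /-- at a dense set of points the norm is not locally octahedral or is simultaneously rough -/
  | points (X : Type u) [NormedAddCommGroup X] [NormedSpace ℝ X] :
      Dense {v : X | SmoothAt v ∨ RoughAt v} → Tame X
  /-- finite-dimensional spaces -/
  | finite (X : Type u) [NormedAddCommGroup X] [NormedSpace ℝ X] : FiniteDimensional ℝ X → Tame X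
  /-- the norm is Fréchet differentiable at a dense set of points -/
  | smooth (X : Type u) [NormedAddCommGroup X] [NormedSpace ℝ X] :
      Dense {v : X | DifferentiableAt ℝ (fun y : X => ‖y‖) v} → Tame X
  /-- locally uniformly rotund spaces -/
  | rotund (X : Type u) [NormedAddCommGroup X] [NormedSpace ℝ X] : LURotund X → Tame X
  /-- octahedral spaces -/
  | octahedral (X : Type u) [NormedAddCommGroup X] [NormedSpace ℝ X] : Octahedral X → Tame X
  /-- spaces whose dual is linearly isometric to some `L₁(μ)` -/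
  | predual (X : Type u) [NormedAddCommGroup X] [NormedSpace ℝ X] (Ω : Type w)
      [MeasurableSpace Ω] (μ : Measure Ω) : (StrongDual ℝ X ≃ₗᵢ[ℝ] Lp ℝ 1 μ) → Tame X
  /-- spaces whose extreme functionals span L-summands of the dual -/
  | extreme (X : Type u) [NormedAddCommGroup X] [NormedSpace ℝ X] : ExtremeLSummands X → Tame X
  /-- spaces with a regular isometric embedding in `C_b(S)`, `S` a Hausdorff space -/
  | regular (S : Type w) [TopologicalSpace S] [T2Space S] (E : Type u) [NormedAddCommGroup E]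
      [NormedSpace ℝ E] (J : E →ₗᵢ[ℝ] (S →ᵇ ℝ)) : Regular J → Tame E
  /-- `C(K)`, `K` a compact Hausdorff space -/
  | continuous (K : Type u) [TopologicalSpace K] [CompactSpace K] [T2Space K] : Tame C(K, ℝ)
  /-- `C₀(L)`, `L` a locally compact Hausdorff space -/
  | vanishing (L : Type u) [TopologicalSpace L] [LocallyCompactSpace L] [T2Space L] :
      Tame C₀(L, ℝ)
  /-- the product of two spaces of the class, with the max norm -/
  | prod (E F : Type u) [NormedAddCommGroup E] [NormedSpace ℝ E] [NormedAddCommGroup F]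
      [NormedSpace ℝ F] : Tame E → Tame F → Tame (E × F)
  /-- a subspace of the `ℓ∞`-sum of spaces of the class containing all the vectors with one nonzero
  coordinate (so the `c₀`-sum) -/
  | sum (I : Type u) [DecidableEq I] (T : I → Type u) [∀ k, NormedAddCommGroup (T k)]
      [∀ k, NormedSpace ℝ (T k)] (X : Submodule ℝ (lp T ∞)) : (∀ k e, lp.single ∞ k e ∈ X) →
      (∀ k, Tame (T k)) → Tame X
  /-- a space with a norming family of M-summands in the class -/
  | summands (I : Type w) (X : Type u) [NormedAddCommGroup X] [NormedSpace ℝ X] (E : I → Type u)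
      [∀ k, NormedAddCommGroup (E k)] [∀ k, NormedSpace ℝ (E k)] (i : ∀ k, E k →ₗᵢ[ℝ] X)
      (p : ∀ k, X →L[ℝ] E k) : (∀ k, MSummand (i k) (p k)) →
      (∀ x : X, x ≠ 0 → ∀ ε > (0:ℝ), ∃ k, ‖x‖ - ε < ‖p k x‖) → (∀ k, Tame (E k)) → Tame X
  /-- the `ℓ₁`-sum of two spaces of the class -/
  | prodOne (E F : Type u) [NormedAddCommGroup E] [NormedSpace ℝ E] [NormedAddCommGroup F]
      [NormedSpace ℝ F] : Tame E → Tame F → Tame (WithLp 1 (E × F))
  /-- the `ℓ_p`-sum, `1 < p < ∞`, of a nonzero space of the class and any normed space -/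
  | prodP (p : ℝ≥0∞) [Fact (1 ≤ p)] (E F : Type u) [NormedAddCommGroup E] [NormedSpace ℝ E]
      [Nontrivial E] [NormedAddCommGroup F] [NormedSpace ℝ F] : 1 < p → p ≠ ∞ → Tame E →
      Tame (WithLp p (E × F))
  /-- the `ℓ₁`-sum of a family with infinitely many nonzero normed spaces -/
  | sumOne (I : Type u) [DecidableEq I] (T : I → Type u) [∀ k, NormedAddCommGroup (T k)]
      [∀ k, NormedSpace ℝ (T k)] : {k | Nontrivial (T k)}.Infinite → Tame (lp T 1)
  /-- the `ℓ_p`-sum, `1 < p < ∞`, of a family of normed spaces, one of them nonzero and in the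
  class -/
  | sumP (p : ℝ≥0∞) [Fact (1 ≤ p)] (I : Type u) [DecidableEq I] (T : I → Type u)
      [∀ k, NormedAddCommGroup (T k)] [∀ k, NormedSpace ℝ (T k)] (k : I) [Nontrivial (T k)] :
      1 < p → p ≠ ∞ → Tame (T k) → Tame (lp T p)
  /-- isometric copies -/
  | copy (X Y : Type u) [NormedAddCommGroup X] [NormedSpace ℝ X] [NormedAddCommGroup Y]
      [NormedSpace ℝ Y] : (X ≃ₗᵢ[ℝ] Y) → Tame X → Tame Y

theorem goodRegular {S : Type*} [TopologicalSpace S] [T2Space S] {E : Type*} [NormedAddCommGroup E]
    [NormedSpace ℝ E] {J : E →ₗᵢ[ℝ] (S →ᵇ ℝ)} (hJ : Regular J) : Pool.Agent.TH326.SF.Good E := by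
  rcases isEmpty_or_nonempty S with hS | hS
  · have : Subsingleton E := by
      refine ⟨fun x y => J.injective ?_⟩
      ext t
      exact (hS.false t).elim
    exact Pool.Agent.TH326.SF.good_of_subsingleton
  · exact Pool.Agent.TH326.SF.dense_regular hJ

theorem Tame.good {X : Type u} [NormedAddCommGroup X] [NormedSpace ℝ X] (h : Tame.{u, w} X) :
    Pool.Agent.TH326.SF.Good X := by
  induction h with
  | points X h => exact h
  | finite X h => exact Pool.Agent.TH326.SF.good_of_finiteDimensional
  | smooth X h => exact Pool.Agent.TH326.SF.good_of_dense_diff h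
  | rotund X h => exact Pool.Agent.TH326.SF.good_of_lur h
  | octahedral X h => exact Pool.Agent.TH326.SF.good_of_octahedral h
  | predual X Ω μ Φ => exact Pool.Agent.TH326.SF.good_of_L1 Φ
  | extreme X h => exact Pool.Agent.TH326.SF.good_of_llines h
  | regular S E J h => exact goodRegular h
  | continuous K => exact goodRegular Pool.Agent.TH326.SF.regular_compact
  | vanishing L => exact goodRegular Pool.Agent.TH326.SF.regular_c0
  | prod E F _ _ hE hF => exact Pool.Agent.TH326.SF.good_prod hE hF
  | sum I T X h1 _ h2 => exact Pool.Agent.TH326.SF.good_lp X h1 h2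
  | summands I X E i p hM hn _ hG =>
    rcases subsingleton_or_nontrivial X with hs | hnt
    · exact Pool.Agent.TH326.SF.good_of_subsingleton
    · exact Pool.Agent.TH326.SF.good_of_msummands i p hM hG hn
  | prodOne E F _ _ hE hF => exact Pool.Agent.TH326.SF.good_withLp_one hE hF
  | prodP p E F h1 h2 _ hE => exact Pool.Agent.TH326.SF.good_withLp p h1 h2 hE
  | sumOne I T h => exact Pool.Agent.TH326.SF.good_lp_one h
  | sumP p I T k h1 h2 _ hk => exact Pool.Agent.TH326.SF.good_lp_p p h1 h2 k hk
  | copy X Y Φ _ hX => exact Pool.Agent.TH326.SF.good_of_equiv Φ hX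

/-- No infinite-dimensional separable Banach space of the class `Tame` has a star-finite covering
by closed balls of positive radius. -/
theorem result (X : Type u) [NormedAddCommGroup X] [NormedSpace ℝ X] [CompleteSpace X]
    [SeparableSpace X] (hdim : ¬ FiniteDimensional ℝ X) (hX : Tame.{u, w} X) (ι : Type v) (c : ι → X)
    (r : ι → ℝ) : ¬ StarFiniteCover c r :=
  fun h => Pool.Agent.TH326.SF.no_cover_sr hdim hX.good h.1 h.2.1 h.2.2

end Pool.Agent.Results.MP_a8a0a5_an.PredualsAndSums
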